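import Pool.Agent.H95.RQ.Targets2
import Mathlib

/-!
# (UFI) a free family of units and a generator of infinite order generate a subgroup of finite index
-/

set_option autoImplicit false

open NumberField NumberField.InfinitePlace IsDedekindDomain

namespace Pool.Agent.H11.RQ

open Pool.Agent.H95.RQ Pool.Agent.H28.RC

/-- finite index from equality of ranks -/
theorem finite_quot {B A : Type} [AddCommGroup B] [AddCommGroup A] [Module.Finite ℤ B]
    [Module.Finite ℤ A] (φ : B →ₗ[ℤ] A) (hφ : Function.Injective φ)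
    (hr : Module.finrank ℤ A ≤ Module.finrank ℤ B) : Finite (A ⧸ LinearMap.range φ) := by
  have h1 := Submodule.finrank_quotient_add_finrank (LinearMap.range φ)
  have h2 : Module.finrank ℤ (LinearMap.range φ) = Module.finrank ℤ B :=
    (LinearEquiv.ofInjective φ hφ).finrank_eq.symm
  have h3 : Module.finrank ℤ (A ⧸ LinearMap.range φ) = 0 := by omega
  have h4 := Module.finrank_eq_zero_iff_isTorsion.1 h3
  exact Module.finite_of_fg_torsion _ h4

/-- the rank of the product with `ℤ` -/
theorem finrank_prod_int {U : Type} [AddCommGroup U] [Module.Finite ℤ U] :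
    Module.finrank ℤ (U × ℤ) = Module.finrank ℤ U + 1 := by
  have h1 := Submodule.finrank_quotient_add_finrank (LinearMap.ker (LinearMap.snd ℤ U ℤ))
  have h2 : Module.finrank ℤ ((U × ℤ) ⧸ LinearMap.ker (LinearMap.snd ℤ U ℤ)) = 1 := by
    rw [((LinearMap.snd ℤ U ℤ).quotKerEquivOfSurjective LinearMap.snd_surjective).finrank_eq]
    exact Module.finrank_self ℤ
  have h3 : Module.finrank ℤ (LinearMap.ker (LinearMap.snd ℤ U ℤ)) = Module.finrank ℤ U := by
    rw [LinearMap.ker_snd]
    exact (LinearEquiv.ofInjective (LinearMap.inl ℤ U ℤ) LinearMap.inl_injective).finrank_eq.symm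
  omega

/-- the multiplicative version -/
theorem index_ne {U : Type} [CommGroup U] [Module.Finite ℤ (Additive U)] {X : Type} [Fintype X]
    (Ψ : (X → Multiplicative ℤ) →* U × Multiplicative ℤ) (hΨ : Function.Injective Ψ)
    (hr : Module.finrank ℤ (Additive U) + 1 ≤ Fintype.card X) : Ψ.range.index ≠ 0 := by
  classical
  let φ : (X → ℤ) →+ Additive U × ℤ :=
    { toFun := fun a => (Additive.ofMul (Ψ (fun x => Multiplicative.ofAdd (a x))).1,
        (Ψ (fun x => Multiplicative.ofAdd (a x))).2.toAdd)
      map_zero' := by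
        have h : (fun x : X => Multiplicative.ofAdd ((0 : X → ℤ) x)) = 1 := rfl
        rw [h, map_one]
        rfl
      map_add' := by
        intro a b
        have h : (fun x : X => Multiplicative.ofAdd ((a + b) x)) =
            (fun x => Multiplicative.ofAdd (a x)) * (fun x => Multiplicative.ofAdd (b x)) := rfl
        rw [h, map_mul]
        rfl }
  have hφ : Function.Injective φ.toIntLinearMap := by
    intro a b hab
    have h1 : φ a = φ b := hab
    have h2 : Ψ (fun x => Multiplicative.ofAdd (a x)) = Ψ (fun x => Multiplicative.ofAdd (b x)) := by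
      have h3 := congrArg Prod.fst h1
      have h4 := congrArg Prod.snd h1
      exact Prod.ext h3 h4
    have h5 := hΨ h2
    funext x
    exact congrFun h5 x
  have hfin := finite_quot φ.toIntLinearMap hφ (by
    rw [finrank_prod_int, Module.finrank_fintype_fun_eq_card]; exact hr)
  let ψ : (Additive U × ℤ) →+ Additive ((U × Multiplicative ℤ) ⧸ Ψ.range) :=
    { toFun := fun y => Additive.ofMul (QuotientGroup.mk' Ψ.range
        (y.1.toMul, Multiplicative.ofAdd y.2))
      map_zero' := by
        have h : (((0 : Additive U × ℤ).1.toMul, Multiplicative.ofAdd (0 : Additive U × ℤ).2) :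
            U × Multiplicative ℤ) = 1 := rfl
        rw [h, map_one]
        rfl
      map_add' := by
        intro a b
        have h : (((a + b).1.toMul, Multiplicative.ofAdd (a + b).2) : U × Multiplicative ℤ) =
            (a.1.toMul, Multiplicative.ofAdd a.2) * (b.1.toMul, Multiplicative.ofAdd b.2) := rfl
        rw [h, map_mul]
        rfl }
  have hker : LinearMap.range φ.toIntLinearMap ≤ LinearMap.ker ψ.toIntLinearMap := by
    rintro _ ⟨a, rfl⟩
    rw [LinearMap.mem_ker]
    change Additive.ofMul (QuotientGroup.mk' Ψ.range (Ψ (fun x => Multiplicative.ofAdd (a x)))) = 0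
    have h : QuotientGroup.mk' Ψ.range (Ψ (fun x => Multiplicative.ofAdd (a x))) = 1 := by
      rw [QuotientGroup.mk'_apply, QuotientGroup.eq_one_iff]
      exact ⟨_, rfl⟩
    rw [h]
    rfl
  have hsurj : Function.Surjective ((LinearMap.range φ.toIntLinearMap).liftQ
      ψ.toIntLinearMap hker) := by
    intro z
    obtain ⟨y, hy⟩ := QuotientGroup.mk'_surjective Ψ.range z.toMul
    refine ⟨Submodule.Quotient.mk ((Additive.ofMul y.1, y.2.toAdd) : Additive U × ℤ), ?_⟩
    rw [Submodule.liftQ_apply]
    change Additive.ofMul (QuotientGroup.mk' Ψ.range y) = z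
    rw [hy]
    rfl
  have hf2 : Finite (Additive ((U × Multiplicative ℤ) ⧸ Ψ.range)) := Finite.of_surjective _ hsurj
  have hf3 : Finite ((U × Multiplicative ℤ) ⧸ Ψ.range) := hf2
  exact Subgroup.index_ne_zero_of_finite

/-- (UFI) -/
theorem pf_UFI : T_UFI := by
  intro E _ _ Φ hinj hle
  classical
  let g : (𝓞 E)ˣ × Multiplicative ℤ →* Eˣ × Multiplicative ℤ :=
    (Units.map (algebraMap (𝓞 E) E : 𝓞 E →* E)).prodMap (MonoidHom.id _)
  have hg : Function.Injective g := by
    intro a b hab
    have h1 := congrArg Prod.fst hab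
    have h2 := congrArg Prod.snd hab
    refine Prod.ext ?_ h2
    have h3 : Units.map (algebraMap (𝓞 E) E : 𝓞 E →* E) a.1 =
      Units.map (algebraMap (𝓞 E) E : 𝓞 E →* E) b.1 := h1
    exact Units.map_injective (RingOfIntegers.coe_injective) h3
  have hgr : g.range = (U0 E).prod ⊤ := by
    ext y
    constructor
    · rintro ⟨x, rfl⟩
      exact ⟨⟨x.1, rfl⟩, trivial⟩
    · rintro ⟨⟨u, hu⟩, -⟩
      exact ⟨(u, y.2), Prod.ext hu rfl⟩
  have hmem : ∀ b, Φ b ∈ g.range := fun b => hgr ▸ hle ⟨b, rfl⟩
  let e := MonoidHom.ofInjective hg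
  let Ψ : (InfinitePlace E → Multiplicative ℤ) →* (𝓞 E)ˣ × Multiplicative ℤ :=
    e.symm.toMonoidHom.comp (Φ.codRestrict g.range hmem)
  have hgΨ : ∀ b, g (Ψ b) = Φ b := by
    intro b
    have h1 : e (Ψ b) = Φ.codRestrict g.range hmem b := e.apply_symm_apply _
    exact congrArg Subtype.val h1
  have hΨ : Function.Injective Ψ := by
    intro a b hab
    exact hinj (by rw [← hgΨ, ← hgΨ, hab])
  have h1 := index_ne Ψ hΨ (by
    rw [NumberField.Units.finrank_eq, NumberField.Units.rank]
    have : 0 < Fintype.card (InfinitePlace E) := Fintype.card_pos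
    omega)
  have h2 : Φ.range = Ψ.range.map g := by
    rw [MonoidHom.map_range]
    have : g.comp Ψ = Φ := MonoidHom.ext hgΨ
    rw [this]
  have h3 : (U0 E).prod ⊤ = (⊤ : Subgroup ((𝓞 E)ˣ × Multiplicative ℤ)).map g := by
    rw [← hgr, MonoidHom.range_eq_map]
  rw [h2, h3, Subgroup.relIndex_map_map_of_injective _ _ hg, Subgroup.relIndex_top_right]
  exact h1

end Pool.Agent.H11.RQ
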